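import Mathlib
import Pool.Agent.U707.LI.Stm

/-! # Project LI (helper707), package FR, by helper200: Frobenius reciprocity -/

set_option autoImplicit false

namespace Pool.Agent.U200.LI

open Pool.Agent.U707.LI

section
variable {G E V W : Type} [Group G] [Field E] [AddCommGroup V] [Module E V] [AddCommGroup W]
  [Module E W]

/-- the functions with values in the translates of `B` -/
def BB (H : Subgroup G) (σ : G →* Module.End E W) (B : Submodule E W) :
    Submodule E (G ⧸ H → W) where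
  carrier := {F | ∀ g : G, σ g⁻¹ (F (g : G ⧸ H)) ∈ B}
  add_mem' := by
    intro F F' hF hF' g
    show σ g⁻¹ (F (g : G ⧸ H) + F' (g : G ⧸ H)) ∈ B
    rw [map_add]
    exact B.add_mem (hF g) (hF' g)
  zero_mem' := by
    intro g
    show σ g⁻¹ (0 : W) ∈ B
    rw [map_zero]
    exact B.zero_mem
  smul_mem' := by
    intro a F hF g
    show σ g⁻¹ (a • F (g : G ⧸ H)) ∈ B
    rw [map_smul]
    exact B.smul_mem _ (hF g)

theorem out_eq (H : Subgroup G) (x : G ⧸ H) : ((Quotient.out x : G) : G ⧸ H) = x :=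
  QuotientGroup.out_eq' x

/-- the value at `x`, translated to `B` -/
noncomputable def ev (H : Subgroup G) (σ : G →* Module.End E W) (B : Submodule E W) (x : G ⧸ H) :
    BB H σ B →ₗ[E] B where
  toFun F := ⟨σ (Quotient.out x)⁻¹ (F.1 x), by
    have h := F.2 (Quotient.out x)
    rwa [out_eq] at h⟩
  map_add' F F' := by
    apply Subtype.ext
    show σ (Quotient.out x)⁻¹ (F.1 x + F'.1 x) = _
    rw [map_add]
    rfl
  map_smul' a F := by
    apply Subtype.ext
    show σ (Quotient.out x)⁻¹ (a • F.1 x) = _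
    rw [map_smul]
    rfl

theorem ev_val (H : Subgroup G) (σ : G →* Module.End E W) (B : Submodule E W) (x : G ⧸ H)
    (F : BB H σ B) : ((ev H σ B x F : B) : W) = σ (Quotient.out x)⁻¹ (F.1 x) := rfl

theorem mul_ap (σ : G →* Module.End E W) (a b : G) (w : W) : σ (a * b) w = σ a (σ b w) := by
  rw [map_mul]
  rfl

theorem key (H : Subgroup G) (ρ : G →* Module.End E V) (σ : G →* Module.End E W)
    (B : Submodule E W) (f : B →ₗ[E] V)
    (hf : ∀ g ∈ H, ∀ x : B, ∃ y : B, (y : W) = σ g x ∧ f y = ρ g (f x))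
    (F : BB H σ B) (g : G) (y : B) (hy : (y : W) = σ g⁻¹ (F.1 (g : G ⧸ H))) :
    ρ g (f y) = ρ (Quotient.out (g : G ⧸ H)) (f (ev H σ B (g : G ⧸ H) F)) := by
  set x : G ⧸ H := (g : G ⧸ H) with hx
  have hh : (Quotient.out x)⁻¹ * g ∈ H := by
    rw [← QuotientGroup.eq, out_eq]
  have hh' : g⁻¹ * Quotient.out x ∈ H := by
    have := H.inv_mem hh
    rwa [mul_inv_rev, inv_inv] at this
  obtain ⟨y', h1, h2⟩ := hf _ hh' (ev H σ B x F)
  have h3 : y' = y := by
    apply Subtype.ext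
    rw [h1, ev_val, hy, ← mul_ap]
    congr 2
    group
  rw [← h3, h2, ← mul_ap]
  congr 2
  group

theorem t_FR0 (H : Subgroup G) [H.FiniteIndex] (ρ : G →* Module.End E V) (σ : G →* Module.End E W)
    (h : SubquotOn H ρ σ) : SubquotOn ⊤ ρ (perm H σ) := by
  classical
  letI : Fintype (G ⧸ H) := Fintype.ofFinite _
  obtain ⟨B, f, hs, hf⟩ := h
  let f' : BB H σ B →ₗ[E] V := ∑ x : G ⧸ H, (ρ (Quotient.out x)) ∘ₗ f ∘ₗ ev H σ B x
  have hf' : ∀ F : BB H σ B, f' F = ∑ x : G ⧸ H, ρ (Quotient.out x) (f (ev H σ B x F)) := by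
    intro F
    simp only [f', LinearMap.sum_apply, LinearMap.comp_apply]
  refine ⟨BB H σ B, f', ?_, ?_⟩
  · intro v
    obtain ⟨b, hb⟩ := hs v
    let F : BB H σ B := ⟨fun x => if x = ((1 : G) : G ⧸ H) then (b : W) else 0, by
      intro g
      show σ g⁻¹ (if (g : G ⧸ H) = ((1 : G) : G ⧸ H) then (b : W) else 0) ∈ B
      by_cases hg : (g : G ⧸ H) = ((1 : G) : G ⧸ H)
      · rw [if_pos hg]
        rw [QuotientGroup.eq, mul_one] at hg
        obtain ⟨y, hy, -⟩ := hf _ hg b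
        rw [← hy]
        exact y.2
      · rw [if_neg hg, map_zero]
        exact B.zero_mem⟩
    refine ⟨F, ?_⟩
    rw [hf', Finset.sum_eq_single (((1 : G) : G ⧸ H))]
    · rw [← key H ρ σ B f hf F 1 b, map_one, hb]
      · rfl
      · show (b : W) = σ (1 : G)⁻¹ (if ((1 : G) : G ⧸ H) = ((1 : G) : G ⧸ H) then (b : W) else 0)
        rw [if_pos rfl, inv_one, map_one]
        rfl
    · intro x _ hx
      have h1 : ev H σ B x F = 0 := by
        apply Subtype.ext
        rw [ev_val]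
        show σ (Quotient.out x)⁻¹ (if x = ((1 : G) : G ⧸ H) then (b : W) else 0) = _
        rw [if_neg hx, map_zero]
        rfl
      rw [h1, map_zero, map_zero]
    · intro h
      exact absurd (Finset.mem_univ _) h
  · intro g _ F
    have hB : ∀ g₁ : G, σ g₁⁻¹ ((perm H σ g F.1) (g₁ : G ⧸ H)) ∈ B ∧
        σ g₁⁻¹ ((perm H σ g F.1) (g₁ : G ⧸ H)) = σ (g⁻¹ * g₁)⁻¹ (F.1 ((g⁻¹ * g₁ : G) : G ⧸ H)) := by
      intro g₁
      have h1 : σ g₁⁻¹ ((perm H σ g F.1) (g₁ : G ⧸ H)) =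
          σ (g⁻¹ * g₁)⁻¹ (F.1 ((g⁻¹ * g₁ : G) : G ⧸ H)) := by
        show σ g₁⁻¹ (σ g (F.1 ((g⁻¹ * g₁ : G) : G ⧸ H))) = _
        rw [← mul_ap]
        congr 2
        group
      refine ⟨?_, h1⟩
      rw [h1]
      exact F.2 _
    let F' : BB H σ B := ⟨perm H σ g F.1, fun g₁ => (hB g₁).1⟩
    refine ⟨F', rfl, ?_⟩
    rw [hf', hf', map_sum, ← Equiv.sum_comp (MulAction.toPerm (g⁻¹ : G))
      (fun x : G ⧸ H => ρ g (ρ (Quotient.out x) (f (ev H σ B x F))))]
    refine Finset.sum_congr rfl fun x _ => ?_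
    show ρ (Quotient.out x) (f (ev H σ B x F')) =
      ρ g (ρ (Quotient.out (g⁻¹ • x)) (f (ev H σ B (g⁻¹ • x) F)))
    have hz : g⁻¹ • x = ((g⁻¹ * Quotient.out x : G) : G ⧸ H) := by
      conv_lhs => rw [← out_eq H x]
      rfl
    rw [hz, ← key H ρ σ B f hf F (g⁻¹ * Quotient.out x) (ev H σ B x F'), ← mul_ap,
      mul_inv_cancel_left]
    rw [ev_val, ← (hB (Quotient.out x)).2, out_eq]

end

theorem t_FR : S_FR := by
  intro G E _ _ H _ V W _ _ _ _ ρ σ h
  exact t_FR0 H ρ σ h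

end Pool.Agent.U200.LI
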